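import Mathlib
import Pool.Agent.MP_bcd61f_mp.Defs
import Pool.Agent.MP_bcd61f_mp.Final

set_option autoImplicit false

open MeasureTheory Set Pool.Agent.MP_bcd61f_mp

namespace Pool.Agent.Results.MP_bcd61f_mp.ConvexProfile

/-- One electron in `ℝ³`, potentials `x ↦ u j (|x|²)` with each `u j` non-increasing and convex on
`(0, ∞)`: the ground-state energy does not decrease when all pairwise distances weakly increase. -/
theorem result (K : ℕ) (u : Fin K → ℝ → ℝ)
    (hloc : ∀ j, LocallyIntegrable (fun x : EuclideanSpace ℝ (Fin 3) => u j (‖x‖ ^ 2)))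
    (hanti : ∀ j, AntitoneOn (u j) (Ioi 0))
    (hconv : ∀ j, ConvexOn ℝ (Ioi 0) (u j))
    (R R' : Fin K → EuclideanSpace ℝ (Fin 3))
    (hR : ∀ i j, dist (R i) (R j) ≤ dist (R' i) (R' j)) :
    groundEnergy (fun x => ∑ j, u j (‖x - R j‖ ^ 2)) ≤
      groundEnergy (fun x => ∑ j, u j (‖x - R' j‖ ^ 2)) := by
  rcases Nat.eq_zero_or_pos K with rfl | hK
  · simp
  have : Nonempty (Fin K) := ⟨⟨0, hK⟩⟩
  let γ : ℝ → Fin K → EuclideanSpace ℝ (Fin 3 ⊕ Option (Fin 3)) := fun t i =>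
    WithLp.toLp 2 (Sum.elim (fun k => √(1 - t) * R i k) fun o => o.elim 0 fun k => √t * R' i k)
  have hγ : ∀ i j, ∀ t ∈ Icc (0 : ℝ) 1,
      ‖γ t i - γ t j‖ ^ 2 = (1 - t) * ‖R i - R j‖ ^ 2 + t * ‖R' i - R' j‖ ^ 2 := by
    intro i j t ht
    have h1 := Real.sq_sqrt (sub_nonneg.2 ht.2)
    have h2 := Real.sq_sqrt ht.1
    simp only [EuclideanSpace.real_norm_sq_eq, γ, Fintype.sum_sum_type, Fintype.sum_option,
      PiLp.sub_apply, Sum.elim_inl, Sum.elim_inr, Option.elim_none, Option.elim_some, ← mul_sub,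
      mul_pow, h1, h2, ← Finset.mul_sum]
    simp
  have hp : Path (EuclideanSpace ℝ (Fin 3 ⊕ Option (Fin 3))) R R' := by
    refine ⟨γ, fun i j => ContinuousOn.congr (by fun_prop) (hγ i j),
      fun i j s hs t ht h => ?_, fun i j => ?_, fun i j => ?_⟩
    · have h1 := pow_le_pow_left₀ dist_nonneg (hR i j) 2
      simp only [dist_eq_norm] at h1
      simp only [hγ i j s hs, hγ i j t ht]
      nlinarith
    · rw [hγ i j 0 ⟨le_rfl, zero_le_one⟩]; ring
    · rw [hγ i j 1 ⟨zero_le_one, le_rfl⟩]; ring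
  exact iInf_mono_of fun φ' hφ' E hE => energy_mono u hanti hloc R R'
    (fun δ τ hδ hτ => CI_convex (by positivity) (by simp [hd]; norm_num) hp _
      (prof_antitone hanti hδ hτ) (prof_nonneg _ _ _) (prof_convex hconv hδ hτ)) hφ' hE

end Pool.Agent.Results.MP_bcd61f_mp.ConvexProfile
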