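import Mathlib
import Pool.Agent.MP_bcd61f_mp.Defs
import Pool.Agent.MP_bcd61f_mp.Final

set_option autoImplicit false

open MeasureTheory Set Pool.Agent.MP_bcd61f_mp

namespace Pool.Agent.Results.MP_bcd61f_mp.LiftedPath

/-- One electron in `ℝ^d`, arbitrary radial non-increasing potentials `w j`: if the distances of
`R` expand continuously and monotonically to those of `R'` through configurations in `ℝ^(d+2)`,
then the ground-state energy does not decrease. -/
theorem result (d K : ℕ) (w : Fin K → EuclideanSpace ℝ (Fin d) → ℝ)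
    (hloc : ∀ j, LocallyIntegrable (w j))
    (hrad : ∀ j x y, ‖x‖ = ‖y‖ → w j x = w j y)
    (hanti : ∀ j x y, x ≠ 0 → ‖x‖ ≤ ‖y‖ → w j y ≤ w j x)
    (R R' : Fin K → EuclideanSpace ℝ (Fin d))
    (γ : ℝ → Fin K → EuclideanSpace ℝ (Fin (d + 2)))
    (hcont : ∀ i j, ContinuousOn (fun t => dist (γ t i) (γ t j)) (Icc 0 1))
    (hmono : ∀ i j, MonotoneOn (fun t => dist (γ t i) (γ t j)) (Icc 0 1))
    (hstart : ∀ i j, dist (γ 0 i) (γ 0 j) = dist (R i) (R j))
    (hend : ∀ i j, dist (γ 1 i) (γ 1 j) = dist (R' i) (R' j)) :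
    groundEnergy (fun x => ∑ j, w j (x - R j)) ≤ groundEnergy (fun x => ∑ j, w j (x - R' j)) := by
  rcases Nat.eq_zero_or_pos K with rfl | hK
  · simp
  rcases Nat.eq_zero_or_pos d with rfl | hd0
  · rw [Subsingleton.elim R R']
  have : Nonempty (Fin K) := ⟨⟨0, hK⟩⟩
  have : Nonempty (Fin d) := ⟨⟨0, hd0⟩⟩
  obtain ⟨e, he⟩ := exists_norm_eq (EuclideanSpace ℝ (Fin d)) zero_le_one
  have hn : ∀ q : ℝ, ‖√q • e‖ = √q := fun q => by
    rw [norm_smul, he, mul_one, Real.norm_of_nonneg (Real.sqrt_nonneg q)]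
  have hw : ∀ j x, w j x = w j (√(‖x‖ ^ 2) • e) := fun j x =>
    hrad j _ _ (by rw [hn, Real.sqrt_sq (norm_nonneg _)])
  have hu : ∀ j, AntitoneOn (fun q => w j (√q • e)) (Ioi 0) := by
    intro j q hq q' _ h
    refine hanti j _ _ (fun h0 => ?_) (by rw [hn, hn]; exact Real.sqrt_le_sqrt h)
    have := hn q
    rw [h0, norm_zero] at this
    exact (Real.sqrt_pos.2 hq).ne this
  have hp : Path (EuclideanSpace ℝ (Fin (d + 2))) R R' := by
    simp only [dist_eq_norm] at hcont hmono hstart hend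
    exact ⟨γ, fun i j => (hcont i j).pow 2,
      fun i j s hs t ht h => pow_le_pow_left₀ (norm_nonneg _) (hmono i j hs ht h) 2,
      fun i j => by rw [hstart], fun i j => by rw [hend]⟩
  have key := iInf_mono_of fun φ' hφ' E hE => energy_mono (fun j q => w j (√q • e)) hu
    (fun j => by simpa only [← hw] using hloc j) R R'
    (fun δ τ hδ hτ => CI_antitone (by positivity) (by simp [hd]; ring) hp _
      (prof_antitone hu hδ hτ) (prof_nonneg _ _ _)) hφ' hE
  simp only [← hw] at key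
  exact key

end Pool.Agent.Results.MP_bcd61f_mp.LiftedPath
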