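import Pool.Agent.MP_bcd61f_mp.Seven

set_option autoImplicit false

open MeasureTheory Pool.Agent.MP_bcd61f_mp

namespace Pool.Agent.Results.MP_bcd61f_mp.SevenNuclei

/-- One electron in `ℝ³`, at most seven nuclei, arbitrary radial non-increasing potentials: the
ground-state energy does not decrease when no distance between nuclei decreases. -/
theorem result (K : ℕ) (hK : K ≤ 7) (w : Fin K → EuclideanSpace ℝ (Fin 3) → ℝ)
    (hloc : ∀ j, LocallyIntegrable (w j))
    (hrad : ∀ j x y, ‖x‖ = ‖y‖ → w j x = w j y)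
    (hanti : ∀ j x y, x ≠ 0 → ‖x‖ ≤ ‖y‖ → w j y ≤ w j x)
    (R R' : Fin K → EuclideanSpace ℝ (Fin 3))
    (hR : ∀ i j, dist (R i) (R j) ≤ dist (R' i) (R' j)) :
    groundEnergy (fun x => ∑ j, w j (x - R j)) ≤ groundEnergy (fun x => ∑ j, w j (x - R' j)) := by
  rcases hK.eq_or_lt with rfl | h
  · obtain ⟨γ, h1, h2, h3, h4⟩ := Sv.motion R R' hR
    exact LiftedPath.result 3 7 w hloc hrad hanti R R' γ h1 h2 h3 h4
  · exact few_nuclei 3 K (by omega) w hloc hrad hanti R R' hR

end Pool.Agent.Results.MP_bcd61f_mp.SevenNuclei
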